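import Pool.Agent.TH682.EL.LearnPoly
import Pool.Agent.H579R2.Spt.Main2
import Pool.Agent.H660R2.NX.Univ
import Pool.Agent.NPC.Classes

/-!
# Diagonalisation against the learner
-/

set_option autoImplicit false

namespace Pool.Agent.TH682.EL

open Pool.Agent.NPC Pool.Agent.H579R2.Spt Pool.Agent.TH682.GD

/-- Deterministic time `2 ^ O(n)`: decided in time polynomial in the length of the input padded
with `2 ^ (c (n + 1))` symbols. -/
def InE (L : Set (List Bool)) : Prop :=
  ∃ (V : List Bool → List Bool) (c : ℕ), PolyTime V ∧
    ∀ x, x ∈ L ↔ V (pairBits x (List.replicate (2 ^ (c * (x.length + 1))) true)) = [true]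

theorem InE.compl {L : Set (List Bool)} (h : InE L) : InE Lᶜ := by
  classical
  obtain ⟨V, c, hV, hVL⟩ := h
  have hVp : Poly V := PIso.poly_iff.2 hV
  refine ⟨fun z => [!decide (V z = [true])], c, polyTime_of_poly (NPC.Poly.not
    (NPC.Poly.decide_eq hVp (NPC.Poly.const _))), fun x => ?_⟩
  rw [Set.mem_compl_iff, hVL x]
  simp

/-- The string of length `m` with the number `j`. -/
def bst (m j : ℕ) : List Bool := (j.bits ++ List.replicate m false).take m

theorem bst_length (m j : ℕ) : (bst m j).length = m := by
  rw [bst, List.length_take, List.length_append, List.length_replicate]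
  omega

theorem valB_zeros : ∀ n : ℕ, valB (List.replicate n false) = 0 := by
  intro n
  induction n with
  | zero => rfl
  | succ n ih => rw [List.replicate_succ, valB_cons, ih]; simp

theorem valB_bst {m j : ℕ} (hj : j < 2 ^ m) : valB (bst m j) = j := by
  have h1 : j.bits.length ≤ m := by
    rw [Nat.size_eq_bits_len]
    exact Nat.size_le.2 hj
  rw [bst, List.take_append, List.take_of_length_le h1, List.take_replicate, valB_append,
    valB_zeros, valB_bits]
  simp

variable {α : Type} [TEnc α]

theorem bst_poly {m j : α → ℕ} (hm : UPoly m) (hj : Poly j) : Poly (fun a => bst (m a) (j a)) := by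
  refine take_poly' (NPC.Poly.append (NPC.Poly.natBits hj) ?_) hm.toPoly
  exact (NPC.Poly.map (l := fun x => List.replicate (m x) ()) (F := fun _ _ => false) hm
    (NPC.Poly.const false)).congr fun x => by simp

/-- The tables before the body `y`, for the header `h`. -/
def tb (G : List Bool × List Bool → List (List ℕ)) (h pd : List Bool) (m j : ℕ) :
    List (List ℕ) := tabs ((List.range j).map (fun i => G (pairBits h (bst m i), pd)))

/-- The diagonal decision. -/
def dg (G : List Bool × List Bool → List (List ℕ)) (x pd : List Bool) : Bool :=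
  !decide (cnt (tb G (unpair x).1 pd (unpair x).2.length (min (valB (unpair x).2) pd.length))
    (G (x, pd)) % 2 = 1)

theorem dg_poly {G : List Bool × List Bool → List (List ℕ)} (hG : Poly G) :
    Poly (fun r : List Bool × List Bool => dg G r.1 r.2) := by
  have e1 : Poly (fun r : List Bool × List Bool => r.1) := NPC.Poly.fst NPC.Poly.id
  have e2 : Poly (fun r : List Bool × List Bool => r.2) := NPC.Poly.snd NPC.Poly.id
  have e3 : Poly (fun r : List Bool × List Bool => unpair r.1) := poly_unpair.comp e1
  have e4 := NPC.Poly.fst e3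
  have e5 := NPC.Poly.snd e3
  have e6 : UPoly (fun r : List Bool × List Bool => min (valB (unpair r.1).2) r.2.length) := by
    refine UPoly.of_le ?_ (UPoly.length e2) fun r => min_le_right _ _
    have h1 := NPC.Poly.valBits e5
    have h2 := (UPoly.length e2).toPoly
    refine (NPC.Poly.ite (NPC.Poly.decide_le h1 h2) h1 h2).congr fun r => ?_
    by_cases h : valB (unpair r.1).2 ≤ r.2.length
    · rw [if_pos h, min_eq_left h]
    · rw [if_neg h, min_eq_right (by omega)]
  have e7 : Poly (fun r : List Bool × List Bool => tb G (unpair r.1).1 r.2 (unpair r.1).2.length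
      (min (valB (unpair r.1).2) r.2.length)) := by
    refine tabs_poly (NPC.Poly.map (l := fun r : List Bool × List Bool =>
      List.range (min (valB (unpair r.1).2) r.2.length))
      (F := fun r i => G (pairBits (unpair r.1).1 (bst (unpair r.1).2.length i), r.2)) e6.range ?_)
    refine hG.comp (NPC.Poly.pair (Pool.Agent.H622R2.poly_pairBits (e4.comp
      (NPC.Poly.fst NPC.Poly.id)) (bst_poly ((UPoly.length e5).comp (NPC.Poly.fst NPC.Poly.id))
        (NPC.Poly.snd NPC.Poly.id))) (e2.comp (NPC.Poly.fst NPC.Poly.id)))
  exact NPC.Poly.not (NPC.Poly.decide_eq (NPC.Poly.mod (cnt_poly e7 hG).toPoly (NPC.Poly.const 2))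
    (NPC.Poly.const 1))

/-- The padding. -/
def pdd (c n : ℕ) : List Bool := List.replicate (2 ^ (c * (n + 1))) true

/-- The diagonal language. -/
def dlang (G : List Bool × List Bool → List (List ℕ)) (c : ℕ) : Set (List Bool) :=
  {x | dg G x (pdd c x.length) = true}

theorem dlang_inE {G : List Bool × List Bool → List (List ℕ)} (hG : Poly G) (c : ℕ) :
    InE (dlang G c) := by
  refine ⟨fun z => [dg G (unpair z).1 (unpair z).2], c,
    polyTime_of_poly ((dg_poly hG).comp poly_unpair), fun x => ?_⟩
  simp only [unpair_pairBits]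
  simp [dlang, pdd]

theorem length_pair (x w : List Bool) : (pairBits x w).length = 2 * x.length + 1 + w.length := by
  unfold pairBits
  rw [List.length_append, List.length_flatMap]
  simp
  omega

/-- **Diagonalisation.** -/
theorem dlang_hard {G : List Bool × List Bool → List (List ℕ)} {c : ℕ} (hc : 0 < c)
    {h : List Bool} {m N : ℕ} {H : Subgroup (Equiv.Perm (Fin N))}
    (hyp : ∀ y : List Bool, y.length = m → ∃ ps : List (Equiv.Perm (Fin N)),
      G (pairBits h y, pdd c (2 * h.length + 1 + m)) = ps.map vals ∧
        (pairBits h y ∈ dlang G c ↔ Odd (lead H ps))) : 2 ^ m ≤ N ^ 2 := by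
  set pd := pdd c (2 * h.length + 1 + m) with hpd
  refine tabs_mistakes (H := H) (fun i => G (pairBits h (bst m i), pd)) (2 ^ m) fun j hj => ?_
  obtain ⟨ps, h1, h2⟩ := hyp (bst m j) (bst_length m j)
  refine ⟨ps, h1, ?_⟩
  rw [← h2]
  have h3 : (pairBits h (bst m j)).length = 2 * h.length + 1 + m := by
    rw [length_pair, bst_length]
  have h4 : j ≤ pd.length := by
    rw [hpd, pdd, List.length_replicate]
    refine hj.le.trans (Nat.pow_le_pow_right (by norm_num) ?_)
    have : 1 * (2 * h.length + 1 + m + 1) ≤ c * (2 * h.length + 1 + m + 1) :=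
      Nat.mul_le_mul_right _ hc
    omega
  show dg G (pairBits h (bst m j)) (pdd c (pairBits h (bst m j)).length) = true ↔ _
  rw [h3, ← hpd]
  unfold dg
  simp only [unpair_pairBits]
  rw [bst_length, valB_bst hj, min_eq_left h4, Bool.not_eq_true', decide_eq_false_iff_not,
    Nat.odd_iff]
  rfl

end Pool.Agent.TH682.EL
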