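import Pool.Agent.TH682.GD.Blk

/-!
# Online learning of decision lists over subgroups
-/

set_option autoImplicit false

namespace Pool.Agent.TH682.EL

open Pool.Agent.TH682.GD

/-- The permutation `u` is sifted to the identity by the table `T`. -/
def sif (T : List (List ℕ)) (u : List ℕ) : Bool := decide (key (sft T u) = none)

/-- The number of leading permutations that are sifted to the identity. -/
def cnt (T : List (List ℕ)) (L : List (List ℕ)) : ℕ := (L.takeWhile (sif T)).length

/-- The learner: the first permutation that is not sifted to the identity is inserted. -/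
def lrn (T : List (List ℕ)) (L : List (List ℕ)) : List (List ℕ) :=
  match L.dropWhile (sif T) with
  | [] => T
  | u :: _ => ins T u

theorem lrn_length_le (T L : List (List ℕ)) : (lrn T L).length ≤ T.length + 1 := by
  unfold lrn
  split
  · omega
  · unfold ins
    split_ifs <;> simp

theorem cnt_or {N : ℕ} {H : Subgroup (Equiv.Perm (Fin N))} {T : List (List ℕ)} (hT : Tab N T)
    (hH : ∀ v ∈ T, InH H v) : ∀ ps : List (Equiv.Perm (Fin N)),
    lead H ps = cnt T (ps.map vals) ∨ (Tab N (lrn T (ps.map vals)) ∧
      (∀ v ∈ lrn T (ps.map vals), InH H v) ∧ (lrn T (ps.map vals)).length = T.length + 1) := by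
  classical
  intro ps
  induction ps with
  | nil => exact Or.inl rfl
  | cons σ ps ih =>
    obtain ⟨σ', h1, h2, h3⟩ := sft_spec hT σ
    by_cases h4 : sif T (vals σ) = true
    · have h5 : σ' = 1 := by
        unfold sif at h4
        rw [decide_eq_true_eq, h1] at h4
        exact (key_none σ').1 h4
      have h6 : σ ∈ H := (h2 H hH).2 (by rw [h5]; exact H.one_mem)
      have h7 : lrn T ((σ :: ps).map vals) = lrn T (ps.map vals) := by
        unfold lrn
        rw [List.map_cons, List.dropWhile_cons_of_pos h4]
      have h8 : cnt T ((σ :: ps).map vals) = cnt T (ps.map vals) + 1 := by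
        unfold cnt
        rw [List.map_cons, List.takeWhile_cons_of_pos h4, List.length_cons]
      have h9 : lead H (σ :: ps) = lead H ps + 1 := by
        unfold lead
        rw [List.takeWhile_cons_of_pos (by simpa using h6), List.length_cons]
      rw [h7, h8, h9]
      rcases ih with ih | ih
      · exact Or.inl (by rw [ih])
      · exact Or.inr ih
    · have h8 : cnt T ((σ :: ps).map vals) = 0 := by
        unfold cnt
        rw [List.map_cons, List.takeWhile_cons_of_neg h4, List.length_nil]
      have h7 : lrn T ((σ :: ps).map vals) = ins T (vals σ) := by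
        unfold lrn
        rw [List.map_cons, List.dropWhile_cons_of_neg h4]
      by_cases h6 : σ ∈ H
      · right
        rw [h7]
        obtain ⟨k1, _, k3, _⟩ := ins_spec hT σ
        refine ⟨k1, k3 H hH h6, ?_⟩
        unfold sif at h4
        rw [decide_eq_true_eq] at h4
        unfold ins
        rw [if_neg h4, List.length_cons]
      · left
        rw [h8]
        unfold lead
        rw [List.takeWhile_cons_of_neg (by simpa using h6), List.length_nil]

/-- The tables of the learner that is wrong at all times. -/
def tabs (Ls : List (List (List ℕ))) : List (List ℕ) := Ls.foldl lrn []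

theorem tabs_append (Ls : List (List (List ℕ))) (L : List (List ℕ)) :
    tabs (Ls ++ [L]) = lrn (tabs Ls) L := by
  unfold tabs
  rw [List.foldl_append]
  rfl

/-- **The mistake bound.** -/
theorem tabs_mistakes {N : ℕ} {H : Subgroup (Equiv.Perm (Fin N))} (F : ℕ → List (List ℕ)) (M : ℕ)
    (h : ∀ j < M, ∃ ps : List (Equiv.Perm (Fin N)), F j = ps.map vals ∧
      (Odd (lead H ps) ↔ ¬ Odd (cnt (tabs ((List.range j).map F)) (F j)))) :
    M ≤ N ^ 2 := by
  have key : ∀ j ≤ M, Tab N (tabs ((List.range j).map F)) ∧
      (∀ v ∈ tabs ((List.range j).map F), InH H v) ∧ (tabs ((List.range j).map F)).length = j := by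
    intro j
    induction j with
    | zero => intro _; exact ⟨tab_nil N, by simp [tabs], rfl⟩
    | succ j ih =>
      intro hj
      obtain ⟨h1, h2, h3⟩ := ih (by omega)
      obtain ⟨ps, h4, h5⟩ := h j (by omega)
      rw [List.range_succ, List.map_append, List.map_singleton, tabs_append]
      rcases cnt_or h1 h2 ps with h6 | ⟨h6, h7, h8⟩
      · rw [h4, h6] at h5
        exact absurd h5 (by tauto)
      · rw [h4]
        exact ⟨h6, h7, by rw [h8, h3]⟩
  obtain ⟨h1, _, h3⟩ := key M le_rfl
  have := tab_length_le h1
  omega

end Pool.Agent.TH682.EL
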