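import Pool.Agent.TH682.EL.Learn
import Pool.Agent.TH682.GD.PolyG

/-!
# The learner is polynomial-time computable
-/

set_option autoImplicit false

namespace Pool.Agent.TH682.EL

open Pool.Agent.NPC Pool.Agent.TH682.GD

variable {α : Type} [TEnc α]

theorem sz_le_of_sublist {β : Type} [TEnc β] {l l' : List β} (h : l.Sublist l') : sz l ≤ sz l' := by
  induction h with
  | slnil => exact le_rfl
  | cons a _ ih => rw [sz_list_cons]; omega
  | cons_cons a _ ih => rw [sz_list_cons, sz_list_cons]; omega

theorem foldr_takeWhile {β : Type} (p : β → Bool) (l : List β) :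
    l.foldr (fun x s => if p x = true then x :: s else []) ([] : List β) = l.takeWhile p := by
  induction l with
  | nil => rfl
  | cons x s ih =>
    rw [List.foldr_cons, List.takeWhile_cons, ih]

theorem takeWhile_poly {β : Type} [TEnc β] {l : α → List β} {p : α → β → Bool} (hl : Poly l)
    (hp : Poly (fun q : α × β => p q.1 q.2)) : Poly (fun a => (l a).takeWhile (p a)) := by
  obtain ⟨r, hr⟩ := hl.sz_le
  have h1 : Poly (fun a => (l a).foldr (fun x s => if p a x = true then x :: s else [])
      ([] : List β)) := by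
    refine NPC.Poly.foldr (l := l) (s := fun _ => ([] : List β))
      (F := fun a x s => if p a x = true then x :: s else []) hl (NPC.Poly.const _) ?_ r ?_
    · exact NPC.Poly.ite (NPC.Poly.decide_bool (hp.comp (NPC.Poly.pair (NPC.Poly.fst NPC.Poly.id)
        (NPC.Poly.fst (NPC.Poly.snd NPC.Poly.id)))))
        (NPC.Poly.cons (NPC.Poly.fst (NPC.Poly.snd NPC.Poly.id))
          (NPC.Poly.snd (NPC.Poly.snd NPC.Poly.id))) (NPC.Poly.const _)
    · intro a k hk
      rw [foldr_takeWhile]
      exact (sz_le_of_sublist (List.takeWhile_sublist _)).trans ((sz_le_of_sublist (List.drop_sublist _ _)).trans (hr a))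
  exact h1.congr fun a => foldr_takeWhile _ _

theorem sif_poly {T : α → List (List ℕ)} {u : α → List ℕ} (hT : Poly T) (hu : Poly u) :
    Poly (fun a => sif (T a) (u a)) :=
  NPC.Poly.decide_eq (key_poly (sft_poly hT hu)) (NPC.Poly.const none)

theorem cnt_poly {T L : α → List (List ℕ)} (hT : Poly T) (hL : Poly L) :
    UPoly (fun a => cnt (T a) (L a)) :=
  UPoly.length (takeWhile_poly (p := fun a u => sif (T a) u) hL
    (sif_poly (hT.comp (NPC.Poly.fst NPC.Poly.id)) (NPC.Poly.snd NPC.Poly.id)))

theorem lrn_eq (T L : List (List ℕ)) : lrn T L = if (cnt T L = L.length) then T else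
    ins T (L.getD (cnt T L) []) := by
  unfold lrn cnt
  have h0 : L.dropWhile (sif T) = L.drop (L.takeWhile (sif T)).length := by
    conv_rhs => rw [← List.takeWhile_append_dropWhile (p := sif T) (l := L)]
    rw [List.drop_append_of_le_length (by
      rw [List.takeWhile_append_dropWhile])]
    simp
  rcases hc : L.dropWhile (sif T) with _ | ⟨u, s⟩
  · have h1 : (L.takeWhile (sif T)).length = L.length := by
      have := congrArg List.length (List.takeWhile_append_dropWhile (p := sif T) (l := L))
      rw [hc] at this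
      simpa using this
    rw [if_pos h1]
  · rw [hc] at h0
    have h1 : (L.takeWhile (sif T)).length < L.length := by
      by_contra hcon
      rw [List.drop_of_length_le (not_lt.1 hcon)] at h0
      simp at h0
    rw [if_neg h1.ne]
    have h2 : L.getD (L.takeWhile (sif T)).length [] = u := by
      rw [List.getD_eq_getElem _ _ h1]
      have h3 := List.getElem_cons_drop (h := h1)
      rw [← h0] at h3
      exact (List.cons.inj h3).1
    rw [h2]

theorem lrn_poly {T L : α → List (List ℕ)} (hT : Poly T) (hL : Poly L) :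
    Poly (fun a => lrn (T a) (L a)) := by
  have h1 := (cnt_poly hT hL).toPoly
  have h2 : Poly (fun a => if (cnt (T a) (L a) = (L a).length) then T a else
      ins (T a) ((L a).getD (cnt (T a) (L a)) [])) :=
    NPC.Poly.ite (NPC.Poly.decide_eq h1 (NPC.Poly.length hL)) hT
      (ins_poly hT (NPC.Poly.getD hL h1 (NPC.Poly.const [])))
  exact h2.congr fun a => (lrn_eq _ _).symm

theorem good_lrn {B : ℕ} {T L : List (List ℕ)} (hT : ∀ τ ∈ T, Good B τ) (hL : ∀ τ ∈ L, Good B τ) :
    ∀ τ ∈ lrn T L, Good B τ := by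
  unfold lrn
  rcases hc : L.dropWhile (sif T) with _ | ⟨u, s⟩
  · exact hT
  · have hu : u ∈ L := (List.dropWhile_sublist (sif T)).subset (by rw [hc]; simp)
    show ∀ τ ∈ ins T u, Good B τ
    unfold ins
    split_ifs
    · exact hT
    · intro τ hτ
      rcases List.mem_cons.1 hτ with rfl | hτ
      · exact good_iter hT (hL u hu) _
      · exact hT τ hτ

theorem good_tabs {B : ℕ} : ∀ (Ls : List (List (List ℕ))) (T : List (List ℕ)),
    (∀ τ ∈ T, Good B τ) → (∀ L ∈ Ls, ∀ τ ∈ L, Good B τ) →
    (∀ τ ∈ Ls.foldl lrn T, Good B τ) ∧ (Ls.foldl lrn T).length ≤ T.length + Ls.length := by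
  intro Ls
  induction Ls with
  | nil => intro T hT _; exact ⟨hT, by simp⟩
  | cons L Ls ih =>
    intro T hT hL
    obtain ⟨h3, h4⟩ := ih (lrn T L) (good_lrn hT (hL L (by simp))) fun L' hL' => hL L' (by simp [hL'])
    refine ⟨h3, h4.trans ?_⟩
    have := lrn_length_le T L
    rw [List.length_cons]
    omega

theorem tabs_poly {Ls : α → List (List (List ℕ))} (hl : Poly Ls) : Poly (fun a => tabs (Ls a)) := by
  obtain ⟨r, hr⟩ := hl.sz_le
  refine NPC.Poly.foldl (l := Ls) (s := fun _ => ([] : List (List ℕ))) (F := fun _ T L => lrn T L)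
    hl (NPC.Poly.const _) (lrn_poly (NPC.Poly.fst (NPC.Poly.snd NPC.Poly.id))
      (NPC.Poly.snd (NPC.Poly.snd NPC.Poly.id)))
    (r * (r * (Polynomial.C 4 * r + 2) + 2) + 1) fun a k _ => ?_
  have h1 := hr a
  have h2 : ∀ L ∈ (Ls a).take k, ∀ τ ∈ L, Good (r.eval (sz a)) τ := fun L hL τ hτ =>
    good_of_sz (by
      have h7 := sz_le_of_mem (List.mem_of_mem_take hL)
      have h8 := sz_le_of_mem hτ
      omega)
  obtain ⟨h3, h4⟩ := good_tabs ((Ls a).take k) [] (fun τ hτ => by simp at hτ) h2
  have h5 : ((Ls a).take k).length ≤ r.eval (sz a) := by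
    have := length_lt_sz (Ls a)
    rw [List.length_take]
    omega
  have h6 := sz_le_length_mul (((Ls a).take k).foldl lrn []) (r.eval (sz a) *
    (4 * r.eval (sz a) + 2) + 1) fun τ hτ => (h3 τ hτ).sz_le
  simp only [Polynomial.eval_add, Polynomial.eval_mul, Polynomial.eval_C, Polynomial.eval_ofNat,
    Polynomial.eval_one]
  refine h6.trans (Nat.add_le_add_right (Nat.mul_le_mul ?_ le_rfl) 1)
  rw [List.length_nil] at h4
  omega

end Pool.Agent.TH682.EL
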