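import Pool.Agent.TH682.EL.Diag
import Pool.Agent.TH682.GD.Thm

/-!
# Exponential time and decision lists over subgroups
-/

set_option autoImplicit false

namespace Pool.Agent.TH682.EL

open Pool.Agent.NPC Pool.Agent.H579R2.Spt Pool.Agent.TH682.GD
open Pool.Agent.TH684.EX (poly_of_polyTime)
open Pool.Agent.H660R2.NX (U U_complete poly_U)

/-- The strings of length `n` in the set `L` are given by the decision list over the subgroup `H`:
the values of `F` are lists of permutations of `N` points (each given by the list of its values), and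
`x` is in `L` if and only if the number of the leading permutations of `F x` that are in `H` is
odd. -/
def ListOn (n : ℕ) (F : List Bool → List (List ℕ)) {N : ℕ} (H : Subgroup (Equiv.Perm (Fin N)))
    (L : Set (List Bool)) : Prop :=
  ∀ x : List Bool, x.length = n → ∃ ps : List (Equiv.Perm (Fin N)),
    F x = ps.map vals ∧ (x ∈ L ↔ Odd (lead H ps))

/-- The set `A` is given by nonuniform decision lists over subgroups: there is a function `f`,
computable in polynomial time, and, for every `n`, a number `a` (advice), at most `n ^ b + b`, a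
number `N` and a subgroup `H` of the symmetric group on `N` points, such that for all strings `x` of
length at most `n`, `f (x, 1 ^ n, a)` is a list of permutations of the `N` points, and the number of
the leading permutations of this list that are in `H` is odd if and only if `x ∈ A`. -/
def GroupList (A : Set (List Bool)) : Prop :=
  ∃ (f : List Bool → List (List ℕ)) (b : ℕ), PolyTime (fun z => bits (f z)) ∧
    ∀ n : ℕ, ∃ a : ℕ, a ≤ n ^ b + b ∧ ∃ (N : ℕ) (H : Subgroup (Equiv.Perm (Fin N))),
      ∀ x : List Bool, x.length ≤ n → ∃ ps : List (Equiv.Perm (Fin N)),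
        f (bits (x, (List.replicate n true, a))) = ps.map vals ∧ (x ∈ A ↔ Odd (lead H ps))

/-- Closure under many-one reductions. -/
theorem GroupList.of_reduces {A A' : Set (List Bool)} (h : Reduces A' A)
    (hA : GroupList A) : GroupList A' := by
  obtain ⟨r, hr, hrA⟩ := h
  obtain ⟨f, b, hf, hG⟩ := hA
  have hrp : Poly r := PIso.poly_iff.2 hr
  have hfp : Poly f := poly_of_polyTime hf
  obtain ⟨p, hp⟩ := hrp.sz_le
  set p' : Polynomial ℕ := p.comp (Polynomial.C 4 * Polynomial.X + 1) with hp'
  have hlen : ∀ n : ℕ, ∀ x : List Bool, x.length ≤ n → (r x).length ≤ p'.eval n := by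
    intro n x hx
    have h1 := hp x
    have h2 := sz_listBool_le x
    have h3 := length_lt_sz (r x)
    have h4 : p.eval (sz x) ≤ p.eval (4 * n + 1) := eval_mono p (by omega)
    rw [hp', Polynomial.eval_comp]
    simp only [Polynomial.eval_add, Polynomial.eval_mul, Polynomial.eval_C, Polynomial.eval_X,
      Polynomial.eval_one]
    omega
  obtain ⟨b', hb'⟩ := exists_pow_add_bound (p' ^ b + Polynomial.C b)
  have d2 : Poly (fun z => (dib z).2.1) := NPC.Poly.fst (NPC.Poly.snd dib_poly)
  refine ⟨fun z => f (bits (r (dib z).1, (List.replicate (p'.eval (dib z).2.1.length) true,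
    (dib z).2.2))), b', polyTime_bits (hfp.comp (bits_poly.comp (NPC.Poly.pair
      (hrp.comp (NPC.Poly.fst dib_poly)) (NPC.Poly.pair (replicate_true_poly
        ((UPoly.length d2).eval p')) (NPC.Poly.snd (NPC.Poly.snd dib_poly)))))), fun n => ?_⟩
  obtain ⟨a, ha, N, H, h1⟩ := hG (p'.eval n)
  refine ⟨a, ?_, N, H, fun x hx => ?_⟩
  · have h2 := hb' n
    simp only [Polynomial.eval_add, Polynomial.eval_pow, Polynomial.eval_C] at h2
    omega
  · obtain ⟨ps, h3, h4⟩ := h1 (r x) (hlen n x hx)
    refine ⟨ps, ?_, (hrA x).trans h4⟩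
    simp only [dib_bits, List.length_replicate]
    exact h3

/-! ### Preprocessing in exponential time -/

/-- The number in a header. -/
def hda (x : List Bool) : ℕ := (unbits ℕ (unpair x).1).getD 0

/-- The lists for a fixed function. -/
def fixG (f : List Bool → List (List ℕ)) (q : List Bool × List Bool) : List (List ℕ) :=
  f (pairBits (bits (q.1, hda q.1)) q.2)

theorem fixG_poly {f : List Bool → List (List ℕ)} (hf : Poly f) : Poly (fixG f) := by
  have e1 : Poly (fun q : List Bool × List Bool => q.1) := NPC.Poly.fst NPC.Poly.id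
  have e2 : Poly (fun q : List Bool × List Bool => hda q.1) :=
    NPC.Poly.optGetD (poly_unbits.comp (NPC.Poly.fst (poly_unpair.comp e1))) (NPC.Poly.const _)
  exact hf.comp (Pool.Agent.H622R2.poly_pairBits (bits_poly.comp (NPC.Poly.pair e1 e2))
    (NPC.Poly.snd NPC.Poly.id))

theorem fixed_hard {f : List Bool → List (List ℕ)} {c : ℕ} (hc : 0 < c) {n a N : ℕ}
    (hn : 30 ≤ n) (ha : a < 2 ^ (n / 20)) (hN : N < 2 ^ (n / 4))
    (H : Subgroup (Equiv.Perm (Fin N))) :
    ¬ ListOn n (fun x => f (pairBits (bits (x, a)) (pdd c n))) H (dlang (fixG f) c) := by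
  intro hL
  have h1 : (bits a).length ≤ 4 * (n / 20) + 1 := by
    rw [bits_length]
    have h2 := sz_nat_le a
    have h3 := Nat.size_le.2 ha
    omega
  obtain ⟨m, hm⟩ : ∃ m, 2 * (bits a).length + 1 + m = n := ⟨n - 2 * (bits a).length - 1, by omega⟩
  have h2 : 2 ^ m ≤ N ^ 2 := by
    refine dlang_hard (G := fixG f) hc (h := bits a) (H := H) fun y hy => ?_
    rw [hm]
    have hlen : (pairBits (bits a) y).length = n := by rw [length_pair, hy, hm]
    obtain ⟨ps, h3, h4⟩ := hL (pairBits (bits a) y) hlen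
    refine ⟨ps, ?_, h4⟩
    have h5 : hda (pairBits (bits a) y) = a := by
      rw [hda, unpair_pairBits, unbits_bits]
      rfl
    unfold fixG
    rw [h5]
    exact h3
  have h3 : N ^ 2 < (2 ^ (n / 4)) ^ 2 := Nat.pow_lt_pow_left hN (by norm_num)
  have h4 : (2 ^ (n / 4)) ^ 2 ≤ 2 ^ m := by
    rw [← pow_mul]
    exact Nat.pow_le_pow_right (by norm_num) (by omega)
  omega

/-! ### A language which is hard for all polynomial-time functions -/

/-- Codes of functions. -/
abbrev Cod : Type := T × List Unit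

/-- The output of a program, decoded. -/
def out (r : Cod × ℕ) (x pd : List Bool) : List (List ℕ) :=
  match U r.1 (bits (x, r.2)) pd.length with
  | none => []
  | some s => (unbits (List (List ℕ)) s).getD []

/-- The lists for all functions. -/
def unvG (q : List Bool × List Bool) : List (List ℕ) :=
  match unbits (Cod × ℕ) (unpair q.1).1 with
  | none => []
  | some r => out r q.1 q.2

theorem unvG_poly : Poly unvG := by
  have e1 : Poly (fun q : List Bool × List Bool => unbits (Cod × ℕ) (unpair q.1).1) :=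
    poly_unbits.comp (NPC.Poly.fst (poly_unpair.comp (NPC.Poly.fst NPC.Poly.id)))
  have o1 : Poly (fun p : (List Bool × List Bool) × (Cod × ℕ) =>
      U p.2.1 (bits (p.1.1, p.2.2)) p.1.2.length) := by
    have h1 : Poly (fun p : (List Bool × List Bool) × (Cod × ℕ) =>
        (p.2.1, bits (p.1.1, p.2.2), p.1.2.map (fun _ => ()))) := by
      refine NPC.Poly.pair (NPC.Poly.fst (NPC.Poly.snd NPC.Poly.id)) (NPC.Poly.pair
        (bits_poly.comp (NPC.Poly.pair (NPC.Poly.fst (NPC.Poly.fst NPC.Poly.id))
          (NPC.Poly.snd (NPC.Poly.snd NPC.Poly.id)))) ?_)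
      exact NPC.Poly.map (l := fun p : (List Bool × List Bool) × (Cod × ℕ) => p.1.2)
        (F := fun _ _ => ()) (NPC.Poly.snd (NPC.Poly.fst NPC.Poly.id)) (NPC.Poly.const ())
    refine (poly_U.comp h1).congr fun p => ?_
    simp
  have o2 : Poly (fun p : (List Bool × List Bool) × (Cod × ℕ) => out p.2 p.1.1 p.1.2) := by
    refine (NPC.Poly.optCases (g := fun _ => ([] : List (List ℕ)))
      (h := fun _ s => (unbits (List (List ℕ)) s).getD []) o1 (NPC.Poly.const _)
      (NPC.Poly.optGetD (poly_unbits.comp (NPC.Poly.snd NPC.Poly.id))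
        (NPC.Poly.const _))).congr fun p => ?_
    unfold out
    cases U p.2.1 (bits (p.1.1, p.2.2)) p.1.2.length <;> rfl
  refine (NPC.Poly.optCases (g := fun _ => ([] : List (List ℕ)))
    (h := fun q r => out r q.1 q.2) e1 (NPC.Poly.const _) o2).congr fun q => ?_
  unfold unvG
  cases unbits (Cod × ℕ) (unpair q.1).1 <;> rfl

/-- A polynomial is smaller than `2 ^ n` for large `n`. -/
theorem exists_eval_lt (p : Polynomial ℕ) : ∃ n₀, ∀ n ≥ n₀, p.eval n < 2 ^ (n / 8) := by
  obtain ⟨e, he⟩ := exists_pow_bound p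
  have h1 : ∀ᶠ n : ℕ in Filter.atTop, (n : ℝ) ^ e < (2 : ℝ) ^ ((n : ℝ) / 8 - 1) := by
    have h2 : Filter.Tendsto (fun n : ℕ => (n : ℝ) ^ e * Real.exp (-(Real.log 2 / 8) * n))
        Filter.atTop (nhds 0) := by
      have := (Real.tendsto_pow_mul_exp_neg_atTop_nhds_zero e)
      have h3 : Filter.Tendsto (fun x : ℝ => x ^ e * Real.exp (-(Real.log 2 / 8) * x))
          Filter.atTop (nhds 0) := by
        have := isLittleO_pow_exp_pos_mul_atTop (k := e) (b := Real.log 2 / 8) (by positivity)
        have h4 := this.tendsto_div_nhds_zero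
        refine h4.congr fun x => ?_
        rw [neg_mul, Real.exp_neg]
        rfl
      exact h3.comp tendsto_natCast_atTop_atTop
    have h3 := h2.eventually (gt_mem_nhds (show (0 : ℝ) < 1 / 2 by norm_num))
    filter_upwards [h3] with n hn
    rw [Real.rpow_sub (by norm_num), Real.rpow_one, Real.rpow_def_of_pos (by norm_num)]
    have h5 : Real.exp (Real.log 2 * ((n : ℝ) / 8)) * Real.exp (-(Real.log 2 / 8) * n) = 1 := by
      rw [← Real.exp_add, ← Real.exp_zero]
      congr 1
      ring
    have h6 := Real.exp_pos (Real.log 2 * ((n : ℝ) / 8))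
    rw [lt_div_iff₀ (by norm_num)]
    have h7 : (n : ℝ) ^ e = (n : ℝ) ^ e * Real.exp (-(Real.log 2 / 8) * n) *
        Real.exp (Real.log 2 * ((n : ℝ) / 8)) := by
      rw [mul_assoc, mul_comm (Real.exp _) (Real.exp _), h5, mul_one]
    rw [h7]
    nlinarith
  obtain ⟨n₀, hn₀⟩ := Filter.eventually_atTop.1 h1
  refine ⟨max n₀ 2, fun n hn => ?_⟩
  have h2 := hn₀ n (le_of_max_le_left hn)
  have h3 := he n (le_of_max_le_right hn)
  have h4 : ((n : ℝ) / 8 - 1) ≤ ((n / 8 : ℕ) : ℝ) := by
    have : (n : ℝ) / 8 < ((n / 8 : ℕ) : ℝ) + 1 := by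
      have h5 : n < 8 * (n / 8 + 1) := by omega
      have h6 : (n : ℝ) < 8 * (((n / 8 : ℕ) : ℝ) + 1) := by exact_mod_cast h5
      linarith
    linarith
  have h5 : (2 : ℝ) ^ ((n : ℝ) / 8 - 1) ≤ (2 : ℝ) ^ (((n / 8 : ℕ) : ℝ)) :=
    Real.rpow_le_rpow_of_exponent_le (by norm_num) h4
  rw [Real.rpow_natCast] at h5
  have h6 : ((n ^ e : ℕ) : ℝ) < ((2 ^ (n / 8) : ℕ) : ℝ) := by
    push_cast
    linarith
  exact h3.trans_lt (by exact_mod_cast h6)

theorem univ_hard {f : List Bool → List (List ℕ)} (hf : PolyTime (fun z => bits (f z))) :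
    ∃ n₀, ∀ n ≥ n₀, ∀ a < 2 ^ (n / 20), ∀ (N : ℕ) (H : Subgroup (Equiv.Perm (Fin N))),
      ¬ ListOn n (fun x => f (bits (x, a))) H (dlang unvG 1) := by
  have hfp : Poly f := poly_of_polyTime hf
  obtain ⟨e, p, he⟩ := U_complete hf
  obtain ⟨pf, hpf⟩ := (hfp.comp (bits_poly (α := List Bool × ℕ))).sz_le
  set q : Polynomial ℕ := Polynomial.C 5 * Polynomial.X + 3 with hq
  obtain ⟨n₁, hn₁⟩ := exists_eval_lt (p.comp q)
  obtain ⟨n₂, hn₂⟩ := exists_eval_lt (pf.comp q)
  refine ⟨n₁ + n₂ + 20 * sz e + 50, fun n hn a ha N H hL => ?_⟩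
  have hs : ∀ x : List Bool, x.length = n → sz (x, a) ≤ q.eval n := by
    intro x hx
    rw [sz_pair]
    have h1 := sz_listBool_le x
    have h2 := sz_nat_le a
    have h3 := Nat.size_le.2 ha
    simp only [hq, Polynomial.eval_add, Polynomial.eval_mul, Polynomial.eval_C, Polynomial.eval_X,
      Polynomial.eval_ofNat]
    omega
  have h1 : (bits (e, a)).length ≤ sz e + 4 * (n / 20) + 2 := by
    rw [bits_length, sz_pair]
    have h2 := sz_nat_le a
    have h3 := Nat.size_le.2 ha
    omega
  obtain ⟨m, hm⟩ : ∃ m, 2 * (bits (e, a)).length + 1 + m = n :=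
    ⟨n - 2 * (bits (e, a)).length - 1, by omega⟩
  have hval : ∀ y : List Bool, y.length = m →
      unvG (pairBits (bits (e, a)) y, pdd 1 n) = f (bits (pairBits (bits (e, a)) y, a)) := by
    intro y hy
    have hlen : (pairBits (bits (e, a)) y).length = n := by rw [length_pair, hy, hm]
    unfold unvG
    simp only [unpair_pairBits, unbits_bits]
    unfold out
    have h2 := he (bits (pairBits (bits (e, a)) y, a)) (pdd 1 n).length (by
      have h3 := hn₁ n (by omega)
      rw [Polynomial.eval_comp] at h3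
      have h4 : p.eval (bits (pairBits (bits (e, a)) y, a)).length ≤ p.eval (q.eval n) := by
        rw [bits_length]
        exact eval_mono p (hs _ hlen)
      have h5 : 2 ^ (n / 8) ≤ (pdd 1 n).length := by
        rw [pdd, List.length_replicate]
        exact Nat.pow_le_pow_right (by norm_num) (by omega)
      omega)
    simp only [h2, unbits_bits]
    rfl
  have hyp : ∀ (N' : ℕ) (H' : Subgroup (Equiv.Perm (Fin N'))),
      ListOn n (fun x => f (bits (x, a))) H' (dlang unvG 1) → 2 ^ m ≤ N' ^ 2 := by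
    intro N' H' hL'
    refine dlang_hard (G := unvG) one_pos (h := bits (e, a)) (H := H') fun y hy => ?_
    rw [hm]
    have hlen : (pairBits (bits (e, a)) y).length = n := by rw [length_pair, hy, hm]
    obtain ⟨ps, h3, h4⟩ := hL' (pairBits (bits (e, a)) y) hlen
    exact ⟨ps, by rw [hval y hy]; exact h3, h4⟩
  by_cases hx : ∃ x : List Bool, x.length = n ∧ f (bits (x, a)) ≠ []
  · obtain ⟨x, hx1, hx2⟩ := hx
    obtain ⟨ps, h2, h3⟩ := hL x hx1
    simp only at h2
    have hN : N < 2 ^ (n / 8) := by
      rcases ps with _ | ⟨σ, ps⟩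
      · exact absurd h2 hx2
      · have h4 := hpf (x, a)
        rw [h2, List.map_cons] at h4
        have h5 := length_lt_sz (vals σ)
        have h6 : sz (vals σ) < sz (vals σ :: ps.map vals) := sz_le_of_mem (by simp)
        rw [vals_length] at h5
        have h7 := hn₂ n (by omega)
        rw [Polynomial.eval_comp] at h7
        have h8 := eval_mono pf (hs x hx1)
        omega
    have h4 := hyp N H hL
    have h5 : N ^ 2 < (2 ^ (n / 8)) ^ 2 := Nat.pow_lt_pow_left hN (by norm_num)
    have h6 : (2 ^ (n / 8)) ^ 2 ≤ 2 ^ m := by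
      rw [← pow_mul]
      exact Nat.pow_le_pow_right (by norm_num) (by omega)
    omega
  · push Not at hx
    have h2 := hyp 0 ⊥ fun x hx1 => by
      refine ⟨[], hx x hx1, ?_⟩
      obtain ⟨ps, h3, h4⟩ := hL x hx1
      simp only at h3
      rw [hx x hx1] at h3
      have h5 : ps = [] := List.map_eq_nil_iff.1 h3.symm
      rw [h4, h5]
      rfl
    have : 0 < 2 ^ m := Nat.two_pow_pos m
    omega

/-- The same lists, for the strings of length exactly `n`, without `n` in unary. -/
def shr (f : List Bool → List (List ℕ)) (z : List Bool) : List (List ℕ) :=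
  f (bits ((dia z).1, (List.replicate (dia z).1.length true, (dia z).2)))

theorem shr_polyTime {f : List Bool → List (List ℕ)} (hf : PolyTime (fun z => bits (f z))) :
    PolyTime (fun z => bits (shr f z)) := by
  have d1 : Poly (fun z => (dia z).1) := NPC.Poly.fst dia_poly
  exact polyTime_bits ((poly_of_polyTime hf).comp (bits_poly.comp (NPC.Poly.pair d1
    (NPC.Poly.pair (replicate_true_poly (UPoly.length d1)) (NPC.Poly.snd dia_poly)))))

theorem shr_bits (f : List Bool → List (List ℕ)) (x : List Bool) (a : ℕ) :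
    shr f (bits (x, a)) = f (bits (x, (List.replicate x.length true, a))) := by
  unfold shr
  rw [dia_bits]

/-- **The universal language is not given by decision lists over subgroups.** -/
theorem not_groupList : ¬ GroupList (dlang unvG 1) := by
  rintro ⟨f, b, hf, h⟩
  obtain ⟨n₀, hn₀⟩ := univ_hard (shr_polyTime hf)
  obtain ⟨n₁, hn₁⟩ := exists_eval_lt ((Polynomial.X ^ b + Polynomial.C b) ^ 3)
  obtain ⟨a, ha, N, H, h1⟩ := h (40 * (n₀ + n₁))
  refine hn₀ (40 * (n₀ + n₁)) (by omega) a ?_ N H fun x hx => by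
    obtain ⟨ps, h2, h3⟩ := h1 x hx.le
    exact ⟨ps, by simp only [shr_bits, hx]; exact h2, h3⟩
  have h2 := hn₁ (40 * (n₀ + n₁)) (by omega)
  simp only [Polynomial.eval_add, Polynomial.eval_pow, Polynomial.eval_C, Polynomial.eval_X] at h2
  by_contra hcon
  have h3 : 2 ^ (40 * (n₀ + n₁) / 20) ≤ (40 * (n₀ + n₁)) ^ b + b := (not_lt.1 hcon).trans ha
  have h4 := Nat.pow_le_pow_left h3 3
  rw [← pow_mul] at h4
  have h5 : 2 ^ (40 * (n₀ + n₁) / 8) ≤ 2 ^ (40 * (n₀ + n₁) / 20 * 3) :=
    Nat.pow_le_pow_right (by norm_num) (by omega)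
  omega

/-- Hardness for `E` under polynomial-time many-one reductions. -/
def EHard (A : Set (List Bool)) : Prop := ∀ L, InE L → Reduces L A

/-- **No hard set for `E` is given by decision lists over subgroups.** -/
theorem not_groupList_of_hard {A : Set (List Bool)} (hA : EHard A) :
    ¬ GroupList A ∧ ¬ GroupList Aᶜ := by
  refine ⟨fun h => not_groupList (GroupList.of_reduces (hA _ (dlang_inE unvG_poly 1)) h),
    fun h => not_groupList (GroupList.of_reduces ?_ h)⟩
  obtain ⟨r, hr, hrA⟩ := hA _ (dlang_inE unvG_poly 1).compl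
  refine ⟨r, hr, fun x => ?_⟩
  have := hrA x
  rw [Set.mem_compl_iff] at this ⊢
  tauto

end Pool.Agent.TH682.EL
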